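import Pool.Agent.Lib.PolyTime.PB
import Pool.Agent.NegLim.LangPF

/-!
# A language decidable in exponential time: hashing with the first good seed

All objects are natural numbers, given by their bits; the predicates are shown to belong to the
polynomial-time calculus on inputs padded to exponential length.
-/

namespace Pool.Agent.EL44

open Finset Pool.Agent.PolyTime Pool.Agent.NegLim.Lang

/-- bit `i` of the number `s`, as a number -/
def bt (s i : ℕ) : ℕ := (s.testBit i).toNat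

/-- coefficient of `T^c` in the `j`-th power of the polynomial given by the bits of `X`, mod 2 -/
def cx (X : ℕ) : ℕ → ℕ → ℕ
  | 0, c => if c = 0 then 1 else 0
  | j + 1, c => (∑ i ∈ range (c + 1), bt X i * cx X j (c - i)) % 2

/-- coefficient of `T^c` in `∑ j < k, a_j(T) X(T)^j` modulo 2, the bits of the `a_j` (`m` each)
being the bits of `s` -/
def vx (k m s X c : ℕ) : ℕ :=
  (∑ j ∈ range k, ∑ i ∈ range (c + 1), (if i < m then bt s (j * m + i) else 0) * cx X j (c - i)) % 2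

/-- an even number of ones, and the top `n / Δ` coefficients vanish -/
def HX (k M Δ n s X : ℕ) : Prop :=
  (∑ i ∈ range n, bt X i) % 2 = 0 ∧ ∀ c < n / Δ, vx k (M * n) s X (M * n - 1 - c) = 0

instance (k M Δ n s : ℕ) : DecidablePred (HX k M Δ n s) := fun X => by unfold HX; infer_instance

/-- no `t × t` rectangle; `P = 2 ^ n` -/
def RX (k M Δ t P n s : ℕ) : Prop :=
  ∀ A < P, ∀ u < P ^ t, ∀ v < P ^ t,
    (∀ i < t, ∀ j < t, i ≠ j → ∃ x < n, A.testBit x = true ∧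
      ¬ (u.testBit (i * n + x) = true ↔ u.testBit (j * n + x) = true)) →
    (∀ i < t, ∀ j < t, i ≠ j → ∃ x < n, ¬ A.testBit x = true ∧
      ¬ (v.testBit (i * n + x) = true ↔ v.testBit (j * n + x) = true)) →
    ∃ i < t, ∃ j < t, ∃ X < P, (∀ x < n, (X.testBit x = true ↔
      ((A.testBit x = true ∧ u.testBit (i * n + x) = true) ∨
        (¬ A.testBit x = true ∧ v.testBit (j * n + x) = true)))) ∧ ¬ HX k M Δ n s X

/-- a good seed; `P = 2 ^ n` -/
def GX (k M Δ t P n s : ℕ) : Prop :=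
  RX k M Δ t P n s ∧ ∃ p < 4 * P + 1, p = 2 ^ (n / Δ + 2) ∧
    P ≤ p * ((range P).filter (fun X => HX k M Δ n s X)).card

/-- the language on padded inputs -/
def LX (k M Δ t : ℕ) (y : List Bool) : Prop :=
  ∃ X < lead y, (∀ i < wlen y, (X.testBit i = true ↔ wbit y i = true)) ∧
    ∃ s < lead y ^ (k * M), GX k M Δ t (lead y) (wlen y) s ∧
      (∀ s' < s, ¬ GX k M Δ t (lead y) (wlen y) s') ∧ HX k M Δ (wlen y) s X

variable {α : Type} [Ctx α]

lemma PD.iff {P Q : List Bool → α → Prop} (hP : PD P) (hQ : PD Q) :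
    PD (fun x a => (P x a ↔ Q x a)) :=
  ((PD.imp hP hQ).and (PD.imp hQ hP)).congr fun x a => by tauto

lemma pf_bt {S I : List Bool → α → ℕ} (hS : PF S) (hI : PF I) :
    PF (fun x a => bt (S x a) (I x a)) := by
  have h : PF (fun x a => if (S x a).testBit (I x a) = true then 1 else 0) :=
    PF.ite (P := fun x a => (S x a).testBit (I x a) = true) (PD.testBit hS hI)
      (PF.const 1) (PF.const 0)
  refine h.congr fun x a => ?_
  unfold bt
  cases (S x a).testBit (I x a) <;> simp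

lemma pf_cx (j : ℕ) : ∀ {α : Type} [Ctx α] {X A : List Bool → α → ℕ}, PF X → PF A →
    PF (fun w a => cx (X w a) j (A w a)) := by
  induction j with
  | zero =>
    intro α _ X A hX hA
    exact PF.ite (PD.eq hA (PF.const 0)) (PF.const 1) (PF.const 0)
  | succ j ih =>
    intro α _ X A hX hA
    have h1 : PF (fun w (p : α × ℕ) => bt (X w p.1) p.2 * cx (X w p.1) j (A w p.1 - p.2)) :=
      (pf_bt hX.fst PF.snd).mul (ih hX.fst (hA.fst.sub PF.snd))
    exact ((PF.sum (hA.add (PF.const 1)) h1).mod (PF.const 2))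

lemma pf_finsum (G : ℕ → List Bool → α → ℕ) (hG : ∀ j, PF (G j)) (K : ℕ) :
    PF (fun w a => ∑ j ∈ Finset.range K, G j w a) := by
  induction K with
  | zero => exact (PF.const 0).congr fun w a => by simp
  | succ K ih => exact (ih.add (hG K)).congr fun w a => by rw [Finset.sum_range_succ]

lemma pf_vx (k : ℕ) {M S X C : List Bool → α → ℕ} (hM : PF M) (hS : PF S) (hX : PF X)
    (hC : PF C) : PF (fun w a => vx k (M w a) (S w a) (X w a) (C w a)) := by
  have h1 : ∀ j, PF (fun w a => ∑ i ∈ range (C w a + 1),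
      (if i < M w a then bt (S w a) (j * M w a + i) else 0) * cx (X w a) j (C w a - i)) := by
    intro j
    have h2 : PF (fun w (p : α × ℕ) => (if p.2 < M w p.1 then
        bt (S w p.1) (j * M w p.1 + p.2) else 0) * cx (X w p.1) j (C w p.1 - p.2)) :=
      (PF.ite (P := fun w (p : α × ℕ) => p.2 < M w p.1) (PD.lt PF.snd hM.fst)
        (pf_bt hS.fst (((PF.const j).mul hM.fst).add PF.snd)) (PF.const 0)).mul
        (pf_cx j hX.fst (hC.fst.sub PF.snd))
    exact PF.sum (hC.add (PF.const 1)) h2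
  exact (pf_finsum _ h1 k).mod (PF.const 2)

lemma pd_HX (k M Δ : ℕ) {N S X : List Bool → α → ℕ} (hN : PF N) (hS : PF S) (hX : PF X) :
    PD (fun w a => HX k M Δ (N w a) (S w a) (X w a)) := by
  have h1 : PF (fun w a => ∑ i ∈ range (N w a), bt (X w a) i) :=
    PF.sum (F := fun w (p : α × ℕ) => bt (X w p.1) p.2) hN (pf_bt hX.fst PF.snd)
  have h2 : PF (fun w (p : α × ℕ) => vx k (M * N w p.1) (S w p.1) (X w p.1)
      (M * N w p.1 - 1 - p.2)) :=
    pf_vx k ((PF.const M).mul hN.fst) hS.fst hX.fst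
      ((((PF.const M).mul hN.fst).sub (PF.const 1)).sub PF.snd)
  have h3 : PD (fun w a => ∀ c < N w a / Δ, vx k (M * N w a) (S w a) (X w a)
      (M * N w a - 1 - c) = 0) :=
    PD.forall_lt (P := fun w (p : α × ℕ) => vx k (M * N w p.1) (S w p.1) (X w p.1)
      (M * N w p.1 - 1 - p.2) = 0) (hN.div (PF.const Δ)) (PD.eq h2 (PF.const 0))
  exact (PD.eq (h1.mod (PF.const 2)) (PF.const 0)).and h3

/-- the distinctness condition -/
lemma pd_dist (t : ℕ) (b : Bool) {N A U : List Bool → α → ℕ} (hN : PF N) (hA : PF A) (hU : PF U) :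
    PD (fun w a => ∀ i < t, ∀ j < t, i ≠ j → ∃ x < N w a,
      (if b = true then (A w a).testBit x = true else ¬ (A w a).testBit x = true) ∧
      ¬ ((U w a).testBit (i * N w a + x) = true ↔ (U w a).testBit (j * N w a + x) = true)) := by
  have h3 : PD (fun w (r : ((α × ℕ) × ℕ) × ℕ) =>
      (if b = true then (A w r.1.1.1).testBit r.2 = true else
        ¬ (A w r.1.1.1).testBit r.2 = true) ∧
      ¬ ((U w r.1.1.1).testBit (r.1.1.2 * N w r.1.1.1 + r.2) = true ↔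
        (U w r.1.1.1).testBit (r.1.2 * N w r.1.1.1 + r.2) = true)) := by
    have hA3 : PD (fun w (r : ((α × ℕ) × ℕ) × ℕ) => (A w r.1.1.1).testBit r.2 = true) :=
      PD.testBit hA.fst.fst.fst PF.snd
    have e1 : PF (fun (_ : List Bool) (r : ((α × ℕ) × ℕ) × ℕ) => r.1.1.2) := PF.snd.fst.fst
    have e2 : PF (fun (_ : List Bool) (r : ((α × ℕ) × ℕ) × ℕ) => r.1.2) := PF.snd.fst
    have h5 : PD (fun w (r : ((α × ℕ) × ℕ) × ℕ) =>
        (U w r.1.1.1).testBit (r.1.1.2 * N w r.1.1.1 + r.2) = true) :=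
      PD.testBit hU.fst.fst.fst ((e1.mul hN.fst.fst.fst).add PF.snd)
    have h6 : PD (fun w (r : ((α × ℕ) × ℕ) × ℕ) =>
        (U w r.1.1.1).testBit (r.1.2 * N w r.1.1.1 + r.2) = true) :=
      PD.testBit hU.fst.fst.fst ((e2.mul hN.fst.fst.fst).add PF.snd)
    refine PD.and ?_ (PD.iff h5 h6).not
    cases b
    · exact hA3.not.congr fun _ _ => by simp
    · exact hA3.congr fun _ _ => by simp
  have h2 : PD (fun w (q : (α × ℕ) × ℕ) => q.1.2 ≠ q.2 → ∃ x < N w q.1.1,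
      (if b = true then (A w q.1.1).testBit x = true else ¬ (A w q.1.1).testBit x = true) ∧
      ¬ ((U w q.1.1).testBit (q.1.2 * N w q.1.1 + x) = true ↔
        (U w q.1.1).testBit (q.2 * N w q.1.1 + x) = true)) :=
    PD.imp (PD.eq PF.snd.fst PF.snd).not (PD.exists_lt hN.fst.fst h3)
  have h1 := PD.forall_lt (PF.const t) h2
  exact PD.forall_lt (PF.const t) h1

lemma pd_RX (k M Δ t : ℕ) {P N S : List Bool → α → ℕ} (hP : PF P) (hN : PF N) (hS : PF S) :
    PD (fun w a => RX k M Δ t (P w a) (N w a) (S w a)) := by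
  -- context: α, A, u, v
  have hA : PF (fun (_ : List Bool) (r : ((α × ℕ) × ℕ) × ℕ) => r.1.1.2) := PF.snd.fst.fst
  have hu : PF (fun (_ : List Bool) (r : ((α × ℕ) × ℕ) × ℕ) => r.1.2) := PF.snd.fst
  have hv : PF (fun (_ : List Bool) (r : ((α × ℕ) × ℕ) × ℕ) => r.2) := PF.snd
  have hN3 : PF (fun w (r : ((α × ℕ) × ℕ) × ℕ) => N w r.1.1.1) := hN.fst.fst.fst
  have hP3 : PF (fun w (r : ((α × ℕ) × ℕ) × ℕ) => P w r.1.1.1) := hP.fst.fst.fst
  have hS3 : PF (fun w (r : ((α × ℕ) × ℕ) × ℕ) => S w r.1.1.1) := hS.fst.fst.fst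
  have d1 := (pd_dist t true hN3 hA hu).congr (Q := fun w (r : ((α × ℕ) × ℕ) × ℕ) =>
    ∀ i < t, ∀ j < t, i ≠ j → ∃ x < N w r.1.1.1, r.1.1.2.testBit x = true ∧
      ¬ (r.1.2.testBit (i * N w r.1.1.1 + x) = true ↔
        r.1.2.testBit (j * N w r.1.1.1 + x) = true)) (fun _ _ => by simp)
  have d2 := (pd_dist t false hN3 hA hv).congr (Q := fun w (r : ((α × ℕ) × ℕ) × ℕ) =>
    ∀ i < t, ∀ j < t, i ≠ j → ∃ x < N w r.1.1.1, ¬ r.1.1.2.testBit x = true ∧
      ¬ (r.2.testBit (i * N w r.1.1.1 + x) = true ↔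
        r.2.testBit (j * N w r.1.1.1 + x) = true)) (fun _ _ => by simp)
  -- context: ..., i, j, X, x
  have d3 : PD (fun w (r : (((α × ℕ) × ℕ) × ℕ)) => ∃ i < t, ∃ j < t, ∃ X < P w r.1.1.1,
      (∀ x < N w r.1.1.1, (X.testBit x = true ↔
        ((r.1.1.2.testBit x = true ∧ r.1.2.testBit (i * N w r.1.1.1 + x) = true) ∨
        (¬ r.1.1.2.testBit x = true ∧ r.2.testBit (j * N w r.1.1.1 + x) = true)))) ∧
        ¬ HX k M Δ (N w r.1.1.1) (S w r.1.1.1) X) := by
    have g1 : PD (fun w (q : ((((((α × ℕ) × ℕ) × ℕ) × ℕ) × ℕ) × ℕ) × ℕ) =>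
        (q.1.2.testBit q.2 = true ↔
        ((q.1.1.1.1.1.1.2.testBit q.2 = true ∧
          q.1.1.1.1.1.2.testBit (q.1.1.1.2 * N w q.1.1.1.1.1.1.1 + q.2) = true) ∨
        (¬ q.1.1.1.1.1.1.2.testBit q.2 = true ∧
          q.1.1.1.1.2.testBit (q.1.1.2 * N w q.1.1.1.1.1.1.1 + q.2) = true)))) := by
      have a1 : PD (fun (_ : List Bool) (q : ((((((α × ℕ) × ℕ) × ℕ) × ℕ) × ℕ) × ℕ) × ℕ) =>
          q.1.2.testBit q.2 = true) := PD.testBit PF.snd.fst PF.snd
      have a2 : PD (fun (_ : List Bool) (q : ((((((α × ℕ) × ℕ) × ℕ) × ℕ) × ℕ) × ℕ) × ℕ) =>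
          q.1.1.1.1.1.1.2.testBit q.2 = true) :=
        PD.testBit PF.snd.fst.fst.fst.fst.fst.fst PF.snd
      have e1 : PF (fun (_ : List Bool) (q : ((((((α × ℕ) × ℕ) × ℕ) × ℕ) × ℕ) × ℕ) × ℕ) =>
          q.1.1.1.2) := PF.snd.fst.fst.fst
      have e2 : PF (fun (_ : List Bool) (q : ((((((α × ℕ) × ℕ) × ℕ) × ℕ) × ℕ) × ℕ) × ℕ) =>
          q.1.1.2) := PF.snd.fst.fst
      have hN7 : PF (fun w (q : ((((((α × ℕ) × ℕ) × ℕ) × ℕ) × ℕ) × ℕ) × ℕ) =>
          N w q.1.1.1.1.1.1.1) := hN3.fst.fst.fst.fst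
      have a3 : PD (fun w (q : ((((((α × ℕ) × ℕ) × ℕ) × ℕ) × ℕ) × ℕ) × ℕ) =>
          q.1.1.1.1.1.2.testBit (q.1.1.1.2 * N w q.1.1.1.1.1.1.1 + q.2) = true) :=
        PD.testBit hu.fst.fst.fst.fst ((e1.mul hN7).add PF.snd)
      have a4 : PD (fun w (q : ((((((α × ℕ) × ℕ) × ℕ) × ℕ) × ℕ) × ℕ) × ℕ) =>
          q.1.1.1.1.2.testBit (q.1.1.2 * N w q.1.1.1.1.1.1.1 + q.2) = true) :=
        PD.testBit hv.fst.fst.fst.fst ((e2.mul hN7).add PF.snd)
      exact PD.iff a1 ((a2.and a3).or (a2.not.and a4))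
    have g2 := PD.forall_lt (B := fun w (q : (((((α × ℕ) × ℕ) × ℕ) × ℕ) × ℕ) × ℕ) =>
      N w q.1.1.1.1.1.1) hN3.fst.fst.fst g1
    have g3 : PD (fun w (q : (((((α × ℕ) × ℕ) × ℕ) × ℕ) × ℕ) × ℕ) =>
        ¬ HX k M Δ (N w q.1.1.1.1.1.1) (S w q.1.1.1.1.1.1) q.2) :=
      (pd_HX k M Δ hN3.fst.fst.fst hS3.fst.fst.fst PF.snd).not
    have g4 := PD.exists_lt (B := fun w (q : ((((α × ℕ) × ℕ) × ℕ) × ℕ) × ℕ) =>
      P w q.1.1.1.1.1) hP3.fst.fst (g2.and g3)
    have g5 := PD.exists_lt (PF.const t) g4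
    exact PD.exists_lt (PF.const t) g5
  have f1 := PD.forall_lt (B := fun w (q : (α × ℕ) × ℕ) => P w q.1.1 ^ t) (hP.fst.fst.pow t)
    (PD.imp d1 (PD.imp d2 d3))
  have f2 := PD.forall_lt (B := fun w (q : α × ℕ) => P w q.1 ^ t) (hP.fst.pow t) f1
  exact PD.forall_lt hP f2

lemma pd_GX (k M Δ t : ℕ) {P N S : List Bool → α → ℕ} (hP : PF P) (hN : PF N) (hS : PF S) :
    PD (fun w a => GX k M Δ t (P w a) (N w a) (S w a)) := by
  refine (pd_RX k M Δ t hP hN hS).and ?_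
  have h1 : PF (fun w (a : α) => ((range (P w a)).filter
      (fun X => HX k M Δ (N w a) (S w a) X)).card) :=
    PF.count (P := fun w (p : α × ℕ) => HX k M Δ (N w p.1) (S w p.1) p.2) hP
      (pd_HX k M Δ hN.fst hS.fst PF.snd)
  have h2 : PD (fun w (p : α × ℕ) => p.2 = 2 ^ (N w p.1 / Δ + 2) ∧
      P w p.1 ≤ p.2 * ((range (P w p.1)).filter
        (fun X => HX k M Δ (N w p.1) (S w p.1) X)).card) :=
    (PD.eq_pow PF.snd ((hN.fst.div (PF.const Δ)).add (PF.const 2))).and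
      (PD.le hP.fst (PF.snd.mul h1.fst))
  exact PD.exists_lt (((PF.const 4).mul hP).add (PF.const 1)) h2

theorem pd_LX (k M Δ t : ℕ) : PD (fun y (_ : α) => LX k M Δ t y) := by
  have hl : ∀ {β : Type} [Ctx β], PF (fun y (_ : β) => lead y) := fun {β} _ => pf_lead
  have hw : ∀ {β : Type} [Ctx β], PF (fun y (_ : β) => wlen y) := fun {β} _ => pf_wlen
  -- context α, X
  have h1 : PD (fun y (p : α × ℕ) => ∀ i < wlen y, (p.2.testBit i = true ↔ wbit y i = true)) :=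
    PD.forall_lt (P := fun y (q : (α × ℕ) × ℕ) => (q.1.2.testBit q.2 = true ↔
      wbit y q.2 = true)) hw (PD.iff (PD.testBit PF.snd.fst PF.snd) (pd_wbit PF.snd))
  have h2 : PD (fun y (q : (α × ℕ) × ℕ) => GX k M Δ t (lead y) (wlen y) q.2) :=
    pd_GX k M Δ t hl hw PF.snd
  have h3 : PD (fun y (q : (α × ℕ) × ℕ) => ∀ s' < q.2, ¬ GX k M Δ t (lead y) (wlen y) s') :=
    PD.forall_lt (P := fun y (r : ((α × ℕ) × ℕ) × ℕ) => ¬ GX k M Δ t (lead y) (wlen y) r.2)
      PF.snd (pd_GX k M Δ t hl hw PF.snd).not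
  have h4 : PD (fun y (q : (α × ℕ) × ℕ) => HX k M Δ (wlen y) q.2 q.1.2) :=
    pd_HX k M Δ hw PF.snd PF.snd.fst
  have h5 : PD (fun y (p : α × ℕ) => ∃ s < lead y ^ (k * M),
      GX k M Δ t (lead y) (wlen y) s ∧
      (∀ s' < s, ¬ GX k M Δ t (lead y) (wlen y) s') ∧ HX k M Δ (wlen y) s p.2) :=
    PD.exists_lt (hl.pow (k * M)) (h2.and (h3.and h4))
  exact PD.exists_lt hl (h1.and h5)

open Classical in
theorem LX_polyTime (k M Δ t : ℕ) : Nonempty (Turing.TM2ComputableInPolyTime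
    (id : List Bool → List Bool) (id : List Bool → List Bool)
    (fun y => [decide (LX k M Δ t y)])) := by
  apply PFBits.polyTime
  refine ⟨fun _ => 1, fun w _ => if LX k M Δ t w then 1 else 0, PF.const 1, ?_, ?_⟩
  · exact PF.ite (P := fun w (_ : Unit × ℕ) => LX k M Δ t w) (pd_LX k M Δ t) (PF.const 1)
      (PF.const 0)
  · intro w
    by_cases h : LX k M Δ t w <;> simp [h]

end Pool.Agent.EL44
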