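import Pool.Agent.EL44.Lang
import Pool.Agent.JT.Slice
import Pool.Agent.NegLim.ExpTime

/-!
# The meaning of the language, and its complexity
-/

namespace Pool.Agent.EL44

open Finset Pool.Agent.JT Pool.Agent.PolyTime
open Pool.Agent.SemRO (RectFree Sensitive mix)
open PowerSeries (coeff)
open Pool.Agent.NegLim.Lang (lead wlen wbit pad lead_pad wlen_pad wbit_pad length_pad pad_outIn)

/-- the word of length `n` given by the bits of the number `X` -/
def wd (n X : ℕ) : Fin n → Bool := fun i => X.testBit i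

/-- the coefficients given by the bits of the number `s` -/
def sd (k m s : ℕ) : Fin k → Fin m → Bool := fun j i => s.testBit (j * m + i)

lemma wd_ofBits {n : ℕ} (x : Fin n → Bool) : wd n (Nat.ofBits x) = x := by
  funext i
  exact Nat.testBit_ofBits_lt x i i.2

lemma wd_inj {n X Y : ℕ} (hX : X < 2 ^ n) (hY : Y < 2 ^ n) (h : wd n X = wd n Y) : X = Y := by
  apply Nat.eq_of_testBit_eq
  intro i
  by_cases hi : i < n
  · exact congrFun h ⟨i, hi⟩
  · have h1 : 2 ^ n ≤ 2 ^ i := Nat.pow_le_pow_right (by norm_num) (not_lt.1 hi)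
    rw [Nat.testBit_lt_two_pow (hX.trans_le h1), Nat.testBit_lt_two_pow (hY.trans_le h1)]

lemma sd_surj {k m : ℕ} (a : Fin k → Fin m → Bool) : ∃ s < 2 ^ (k * m), sd k m s = a := by
  refine ⟨Nat.ofBits (fun r : Fin (k * m) => a r.divNat r.modNat), Nat.ofBits_lt_two_pow _, ?_⟩
  funext j i
  have hlt : (j : ℕ) * m + i < k * m := by
    calc (j : ℕ) * m + i < (j : ℕ) * m + m := by have := i.2; omega
      _ = (j + 1) * m := by ring
      _ ≤ k * m := Nat.mul_le_mul_right _ j.2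
  unfold sd
  rw [Nat.testBit_ofBits_lt _ _ hlt]
  have hm : 0 < m := by have := i.2; omega
  congr 1
  · apply Fin.ext
    change ((j : ℕ) * m + i) / m = j
    rw [mul_comm, Nat.mul_add_div hm, Nat.div_eq_of_lt i.2, add_zero]
  · apply Fin.ext
    change ((j : ℕ) * m + i) % m = i
    rw [mul_comm, Nat.mul_add_mod, Nat.mod_eq_of_lt i.2]

section series

variable {k m n s X : ℕ}

lemma cast_bt (hX : X < 2 ^ n) (i : ℕ) :
    ((bt X i : ℕ) : ZMod 2) = coeff i (ser (fun i : Fin n => zb (wd n X i))) := by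
  rw [coeff_ser]
  unfold bt
  rw [cast_toNat]
  by_cases h : i < n
  · rw [dif_pos h]; rfl
  · rw [dif_neg h, Nat.testBit_lt_two_pow
      (hX.trans_le (Nat.pow_le_pow_right (by norm_num) (not_lt.1 h)))]
    rfl

lemma cast_cx (hX : X < 2 ^ n) (j c : ℕ) :
    ((cx X j c : ℕ) : ZMod 2) = coeff c (ser (fun i : Fin n => zb (wd n X i)) ^ j) := by
  induction j generalizing c with
  | zero =>
    rw [pow_zero, PowerSeries.coeff_one, cx]
    split_ifs <;> simp
  | succ j ih =>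
    rw [pow_succ', PowerSeries.coeff_mul, Finset.Nat.sum_antidiagonal_eq_sum_range_succ_mk, cx,
      ZMod.natCast_mod, Nat.cast_sum]
    refine Finset.sum_congr rfl fun i _ => ?_
    rw [Nat.cast_mul, ih, cast_bt hX]

lemma cast_vx (hX : X < 2 ^ n) (c : ℕ) : ((vx k m s X c : ℕ) : ZMod 2) =
    coeff c (pval (fun j i => zb (sd k m s j i)) (fun i => zb (wd n X i))) := by
  unfold vx pval
  rw [ZMod.natCast_mod, Nat.cast_sum, map_sum, Finset.sum_range]
  refine Finset.sum_congr rfl fun j _ => ?_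
  rw [PowerSeries.coeff_mul, Finset.Nat.sum_antidiagonal_eq_sum_range_succ_mk, Nat.cast_sum]
  refine Finset.sum_congr rfl fun i _ => ?_
  rw [Nat.cast_mul, cast_cx hX, coeff_ser]
  congr 1
  by_cases h : i < m
  · rw [if_pos h, dif_pos h]
    unfold bt
    rw [cast_toNat]
    rfl
  · rw [if_neg h, dif_neg h, Nat.cast_zero]

lemma hx_iff {M Δ : ℕ} (hX : X < 2 ^ n) :
    HX k M Δ n s X ↔ wd n X ∈ FS (n / Δ) (sd k (M * n) s) := by
  unfold HX FS
  have h1 : (∑ i ∈ range n, bt X i) % 2 = 0 ↔ EvenW (wd n X) := by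
    rw [evenW_iff, Finset.sum_range]
    exact Iff.rfl
  have h : ∀ c, vx k (M * n) s X c = 0 ↔
      coeff c (pval (fun j i => zb (sd k (M * n) s j i)) (fun i => zb (wd n X i))) = 0 := by
    intro c
    rw [← cast_vx hX c, ZMod.natCast_eq_zero_iff]
    have h2 : vx k (M * n) s X c < 2 := Nat.mod_lt _ (by norm_num)
    constructor
    · intro h; rw [h]; exact dvd_zero 2
    · intro h
      obtain ⟨q, hq⟩ := h
      omega
  rw [h1]
  simp only [h]
  exact Iff.rfl

end series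

/-! ### Rectangles -/

lemma enc_bits {t n : ℕ} (u : Fin t → Fin n → Bool) :
    ∃ U < (2 ^ n) ^ t, ∀ (i : Fin t) (x : Fin n), U.testBit (i * n + x) = u i x := by
  obtain ⟨s, hs, h⟩ := sd_surj u
  refine ⟨s, ?_, fun i x => congrFun (congrFun h i) x⟩
  rwa [← pow_mul, mul_comm n t]

theorem rx_iff (k M Δ t n s : ℕ) :
    RX k M Δ t (2 ^ n) n s ↔ RectFree (FS (n := n) (n / Δ) (sd k (M * n) s)) t := by
  constructor
  · intro h S u v hu hv
    obtain ⟨A, hA, hAb⟩ : ∃ A < 2 ^ n, ∀ x : Fin n, A.testBit x = decide (x ∈ S) :=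
      ⟨Nat.ofBits (fun x => decide (x ∈ S)), Nat.ofBits_lt_two_pow _,
        fun x => Nat.testBit_ofBits_lt _ _ x.2⟩
    obtain ⟨U, hU, hUb⟩ := enc_bits u
    obtain ⟨V, hV, hVb⟩ := enc_bits v
    have hu' : ∀ i < t, ∀ j < t, i ≠ j → ∃ x < n, A.testBit x = true ∧
        ¬ (U.testBit (i * n + x) = true ↔ U.testBit (j * n + x) = true) := by
      intro i hi j hj hij
      obtain ⟨x, hx, hne⟩ := hu ⟨i, hi⟩ ⟨j, hj⟩ (fun h => hij (congrArg Fin.val h))
      refine ⟨x, x.2, by rw [hAb x]; simpa using hx, ?_⟩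
      rw [hUb ⟨i, hi⟩ x, hUb ⟨j, hj⟩ x]
      intro h4
      exact hne (Bool.eq_iff_iff.2 h4)
    have hv' : ∀ i < t, ∀ j < t, i ≠ j → ∃ x < n, ¬ A.testBit x = true ∧
        ¬ (V.testBit (i * n + x) = true ↔ V.testBit (j * n + x) = true) := by
      intro i hi j hj hij
      obtain ⟨x, hx, hne⟩ := hv ⟨i, hi⟩ ⟨j, hj⟩ (fun h => hij (congrArg Fin.val h))
      refine ⟨x, x.2, by rw [hAb x]; simpa using hx, ?_⟩
      rw [hVb ⟨i, hi⟩ x, hVb ⟨j, hj⟩ x]
      intro h4
      exact hne (Bool.eq_iff_iff.2 h4)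
    obtain ⟨i, hi, j, hj, X, hX, h1, h2⟩ := h A hA U hU V hV hu' hv'
    refine ⟨⟨i, hi⟩, ⟨j, hj⟩, fun hcon => h2 ((hx_iff hX).2 ?_)⟩
    have e : wd n X = mix S (u ⟨i, hi⟩) (v ⟨j, hj⟩) := by
      funext x
      have h3 := h1 x x.2
      rw [hAb x, hUb ⟨i, hi⟩ x, hVb ⟨j, hj⟩ x] at h3
      unfold wd mix
      rw [Bool.eq_iff_iff, h3]
      by_cases hx : x ∈ S <;> simp [hx]
    rw [e]
    exact hcon
  · intro h A _ U _ V _ hu hv
    have hu' : ∀ i j : Fin t, i ≠ j → ∃ x ∈ Finset.univ.filter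
        (fun x : Fin n => A.testBit x = true), sd t n U i x ≠ sd t n U j x := by
      intro i j hij
      obtain ⟨x, hx, h1, h2⟩ := hu i i.2 j j.2 (fun h => hij (Fin.ext h))
      refine ⟨⟨x, hx⟩, by simpa using h1, fun h3 => h2 ?_⟩
      unfold sd at h3
      change U.testBit (i * n + x) = U.testBit (j * n + x) at h3
      rw [h3]
    have hv' : ∀ i j : Fin t, i ≠ j → ∃ x, x ∉ Finset.univ.filter
        (fun x : Fin n => A.testBit x = true) ∧ sd t n V i x ≠ sd t n V j x := by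
      intro i j hij
      obtain ⟨x, hx, h1, h2⟩ := hv i i.2 j j.2 (fun h => hij (Fin.ext h))
      refine ⟨⟨x, hx⟩, by simpa using h1, fun h3 => h2 ?_⟩
      unfold sd at h3
      change V.testBit (i * n + x) = V.testBit (j * n + x) at h3
      rw [h3]
    obtain ⟨i, j, hij⟩ := h (Finset.univ.filter (fun x : Fin n => A.testBit x = true))
      (sd t n U) (sd t n V) hu' hv'
    refine ⟨i, i.2, j, j.2, Nat.ofBits (mix (Finset.univ.filter
      (fun x : Fin n => A.testBit x = true)) (sd t n U i) (sd t n V j)),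
      Nat.ofBits_lt_two_pow _, ?_, ?_⟩
    · intro x hx
      rw [Nat.testBit_ofBits_lt _ _ hx]
      unfold mix sd
      by_cases hAx : A.testBit x = true <;> simp [hAx]
    · rw [hx_iff (Nat.ofBits_lt_two_pow _), wd_ofBits]
      exact hij

open Classical in
lemma card_hx (k M Δ n s : ℕ) : ((range (2 ^ n)).filter (fun X => HX k M Δ n s X)).card =
    (Finset.univ.filter (fun x : Fin n → Bool => x ∈ FS (n / Δ) (sd k (M * n) s))).card := by
  refine Finset.card_bij (fun X _ => wd n X) ?_ ?_ ?_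
  · intro X hX
    obtain ⟨h1, h2⟩ := Finset.mem_filter.1 hX
    exact Finset.mem_filter.2 ⟨Finset.mem_univ _, (hx_iff (Finset.mem_range.1 h1)).1 h2⟩
  · intro X hX Y hY h
    exact wd_inj (Finset.mem_range.1 (Finset.mem_filter.1 hX).1)
      (Finset.mem_range.1 (Finset.mem_filter.1 hY).1) h
  · intro x hx
    refine ⟨Nat.ofBits x, Finset.mem_filter.2 ⟨Finset.mem_range.2 (Nat.ofBits_lt_two_pow _), ?_⟩,
      wd_ofBits x⟩
    rw [hx_iff (Nat.ofBits_lt_two_pow _), wd_ofBits]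
    exact (Finset.mem_filter.1 hx).2

open Classical in
theorem gx_iff (k M Δ t n s : ℕ) :
    GX k M Δ t (2 ^ n) n s ↔ RectFree (FS (n := n) (n / Δ) (sd k (M * n) s)) t ∧
      2 ^ n ≤ 2 ^ (n / Δ + 2) *
        (Finset.univ.filter (fun x : Fin n → Bool => x ∈ FS (n / Δ) (sd k (M * n) s))).card := by
  unfold GX
  rw [rx_iff, card_hx]
  refine and_congr_right fun _ => ?_
  constructor
  · rintro ⟨p, _, rfl, h⟩
    exact h
  · intro h
    refine ⟨_, ?_, rfl, h⟩
    have h1 : 2 ^ (n / Δ + 2) ≤ 2 ^ (n + 2) :=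
      Nat.pow_le_pow_right (by norm_num) (by have := Nat.div_le_self n Δ; omega)
    rw [pow_add 2 n 2] at h1
    omega

/-! ### The language -/

open Classical in
/-- the language -/
noncomputable def lang (k M Δ t : ℕ) (x : List Bool) : Bool := decide (LX k M Δ t (pad x))

/-- The language is decided in time `2^(O(n))`. -/
theorem lang_exp (k M Δ t : ℕ) : ∃ c : ℕ, Pool.Agent.NegLim.DecidableInTime (lang k M Δ t)
    (fun n => c * 2 ^ (c * n)) := by
  classical
  obtain ⟨M1, hM1⟩ := pad_outIn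
  obtain ⟨P⟩ := LX_polyTime k M Δ t
  let M2 : Turing.TM2ComputableAux Bool Bool :=
    { tm := P.tm, inputAlphabet := P.inputAlphabet, outputAlphabet := P.outputAlphabet }
  obtain ⟨C, e, hCe⟩ : ∃ C e : ℕ, ∀ n, 1 ≤ n → P.time.eval n ≤ C * n ^ e := by
    refine ⟨∑ i ∈ Finset.range (P.time.natDegree + 1), P.time.coeff i, P.time.natDegree, ?_⟩
    intro n hn
    rw [Polynomial.eval_eq_sum_range, Finset.sum_mul]
    refine Finset.sum_le_sum fun i hi => ?_
    apply Nat.mul_le_mul_left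
    exact Nat.pow_le_pow_right hn (by rw [Finset.mem_range] at hi; omega)
  refine ⟨37 + C * 3 ^ e + e, compAux M1 M2, fun x => ?_⟩
  have hy : OutIn M2 (pad x) [decide (LX k M Δ t (pad x))] (P.time.eval (pad x).length) :=
    ⟨P.outputsFun (pad x)⟩
  refine ((OutIn.comp (hM1 x) hy).mono ?_ : OutIn (compAux M1 M2) x [lang k M Δ t x] _)
  have hlt : x.length < 2 ^ x.length := Nat.lt_two_pow_self
  have hP : 1 ≤ 2 ^ x.length := Nat.one_le_two_pow
  have hlen := length_pad x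
  obtain ⟨p, hp⟩ : ∃ p, p = 2 ^ x.length := ⟨_, rfl⟩
  rw [← hp] at hlt hP hlen
  have h1 : (pad x).length ≤ 3 * p := by omega
  have h2 : P.time.eval (pad x).length ≤ C * (3 * p) ^ e :=
    (hCe _ (by omega)).trans (Nat.mul_le_mul_left _ (Nat.pow_le_pow_left h1 e))
  have h3 : C * (3 * p) ^ e ≤ C * 3 ^ e * p ^ (e + 1) := by
    rw [mul_pow, ← mul_assoc]
    exact Nat.mul_le_mul_left _ (Nat.pow_le_pow_right hP (by omega))
  have h4 : p ≤ p ^ (e + 1) := by
    calc p = p ^ 1 := (pow_one p).symm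
      _ ≤ p ^ (e + 1) := Nat.pow_le_pow_right hP (by omega)
  have h5 : p ^ (e + 1) ≤ 2 ^ ((37 + C * 3 ^ e + e) * x.length) := by
    rw [hp, ← pow_mul, mul_comm x.length]
    apply Nat.pow_le_pow_right (by norm_num)
    apply Nat.mul_le_mul_right
    omega
  show _ ≤ (37 + C * 3 ^ e + e) * 2 ^ ((37 + C * 3 ^ e + e) * x.length)
  calc 24 * 2 ^ x.length + 7 + 2 * ((pad x).length + 1) + P.time.eval (pad x).length
      ≤ 37 * p + C * 3 ^ e * p ^ (e + 1) := by rw [← hp]; omega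
    _ ≤ 37 * p ^ (e + 1) + C * 3 ^ e * p ^ (e + 1) := by omega
    _ ≤ (37 + C * 3 ^ e + e) * p ^ (e + 1) := by
      rw [← add_mul]; exact Nat.mul_le_mul_right _ (by omega)
    _ ≤ _ := Nat.mul_le_mul_left _ h5

lemma ofFn_getD {N : ℕ} (y : Fin N → Bool) (i : ℕ) (hi : i < N) :
    (List.ofFn y).getD i false = y ⟨i, hi⟩ := by
  rw [List.getD_eq_getElem _ _ (by simpa using hi)]
  simp

open Classical in
/-- The words of length `n` form a rectangle-free set if there is a good seed. -/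
theorem lang_spec (k M Δ t n : ℕ) (a0 : Fin k → Fin (M * n) → Bool)
    (h0 : RectFree (FS (n := n) (n / Δ) a0) t)
    (h1 : 2 ^ n ≤ 2 ^ (n / Δ + 2) *
        (Finset.univ.filter (fun x : Fin n → Bool => x ∈ FS (n / Δ) a0)).card) :
    ∃ a : Fin k → Fin (M * n) → Bool, RectFree (FS (n := n) (n / Δ) a) t ∧
      2 ^ n ≤ 2 ^ (n / Δ + 2) *
        (Finset.univ.filter (fun x : Fin n → Bool => x ∈ FS (n / Δ) a)).card ∧
      ∀ x : Fin n → Bool, lang k M Δ t (List.ofFn x) = true ↔ x ∈ FS (n / Δ) a := by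
  obtain ⟨s0, hs0, rfl⟩ := sd_surj a0
  have hex : ∃ s, GX k M Δ t (2 ^ n) n s := ⟨s0, (gx_iff _ _ _ _ _ _).2 ⟨h0, h1⟩⟩
  obtain ⟨s, hs, hmin⟩ : ∃ s, GX k M Δ t (2 ^ n) n s ∧ ∀ s' < s, ¬ GX k M Δ t (2 ^ n) n s' :=
    ⟨Nat.find hex, Nat.find_spec hex, fun s' hs' => Nat.find_min hex hs'⟩
  have hsle : s ≤ s0 := by
    by_contra hcon
    exact hmin s0 (not_le.1 hcon) ((gx_iff _ _ _ _ _ _).2 ⟨h0, h1⟩)
  refine ⟨sd k (M * n) s, ((gx_iff _ _ _ _ _ _).1 hs).1, ((gx_iff _ _ _ _ _ _).1 hs).2,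
    fun x => ?_⟩
  unfold lang
  rw [decide_eq_true_iff]
  unfold LX
  rw [lead_pad, wlen_pad, List.length_ofFn]
  constructor
  · rintro ⟨X, hX, hXb, s', _, h2, h3, h4⟩
    have e : s' = s := by
      rcases lt_trichotomy s' s with h | h | h
      · exact absurd h2 (hmin s' h)
      · exact h
      · exact absurd hs (h3 s h)
    subst e
    have e2 : wd n X = x := by
      funext i
      have h5 := hXb i i.2
      rw [wbit_pad, ofFn_getD _ _ i.2] at h5
      exact Bool.eq_iff_iff.2 h5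
    rw [← e2]
    exact (hx_iff hX).1 h4
  · intro hx
    refine ⟨Nat.ofBits x, Nat.ofBits_lt_two_pow _, ?_, s, ?_, hs, hmin, ?_⟩
    · intro i hi
      rw [wbit_pad, ofFn_getD _ _ hi, Nat.testBit_ofBits_lt _ _ hi]
    · refine lt_of_le_of_lt hsle ?_
      rw [← pow_mul]
      have : k * (M * n) = n * (k * M) := by ring
      rwa [this] at hs0
    · rw [hx_iff (Nat.ofBits_lt_two_pow _), wd_ofBits]
      exact hx

open Classical in
/-- **The language**: for every `Δ` there is `t` such that for all large `n` the words of length `n`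
form a set without `t × t` rectangle, sensitive in every variable and of density about
`2 ^ (- n / Δ)`. -/
theorem exists_lang (Δ : ℕ) (hΔ : 0 < Δ) : ∃ (t : ℕ) (L : List Bool → Bool),
    (∃ c : ℕ, Pool.Agent.NegLim.DecidableInTime L (fun n => c * 2 ^ (c * n))) ∧
    ∀ n : ℕ, 8 * Δ ≤ n →
      RectFree {x : Fin n → Bool | L (List.ofFn x) = true} t ∧
      Sensitive {x : Fin n → Bool | L (List.ofFn x) = true} ∧
      2 ^ n ≤ 2 ^ (n / Δ + 2) *
        (Finset.univ.filter (fun x : Fin n → Bool => L (List.ofFn x) = true)).card := by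
  obtain ⟨t, ht⟩ : ∃ t, t = 8 * Δ := ⟨_, rfl⟩
  refine ⟨t, lang (t * t) (t * t * (t * t) + 1) Δ t, lang_exp _ _ _ _, fun n hn => ?_⟩
  have ht0 : 0 < t := by omega
  have hn0 : 0 < n := by omega
  obtain ⟨l, hl⟩ : ∃ l, l = n / Δ := ⟨_, rfl⟩
  have hl1 : n < Δ * (l + 1) := by rw [hl]; exact Nat.lt_mul_div_succ n hΔ
  have hl8 : 8 ≤ l := by rw [hl]; exact (Nat.le_div_iff_mul_le hΔ).2 hn
  have hln : l ≤ n := by rw [hl]; exact Nat.div_le_self _ _
  obtain ⟨a0, h0, h1⟩ := exists_seed t n l ((t * t * (t * t) + 1) * n) ht0 hn0 (by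
      have : (t * t * (t * t) + 1) * n = n * (t * t) * (t * t) + n := by ring
      rw [this]; omega) (by
      -- n (2 t + 1) + l + 2 < l t ^ 2
      have e1 : n * (2 * t + 1) ≤ Δ * (l + 1) * (2 * t + 1) := Nat.mul_le_mul_right _ hl1.le
      have e2 : 8 * (Δ * (l + 1) * (2 * t + 1)) = t * (l + 1) * (2 * t + 1) := by rw [ht]; ring
      have e3 : t * (l + 1) * (2 * t + 1) = 2 * (l * (t * t)) + 2 * (t * t) + t * l + t := by ring
      have e4 : 8 * (t * t) ≤ l * (t * t) := Nat.mul_le_mul_right _ hl8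
      have e5 : t * l ≤ l * (t * t) := by
        calc t * l = l * t * 1 := by ring
          _ ≤ l * t * t := Nat.mul_le_mul_left _ ht0
          _ = l * (t * t) := by ring
      have e6 : t ≤ t * t := Nat.le_mul_self t
      have e7 : l * 64 ≤ l * (t * t) := by
        apply Nat.mul_le_mul_left
        have : 8 ≤ t := by omega
        nlinarith
      omega)
  rw [hl] at h0 h1
  obtain ⟨a, h2, h3, h4⟩ := lang_spec (t * t) (t * t * (t * t) + 1) Δ t n a0 h0 h1
  have e : {x : Fin n → Bool | lang (t * t) (t * t * (t * t) + 1) Δ t (List.ofFn x) = true} =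
      FS (n / Δ) a := by
    ext x
    exact h4 x
  refine ⟨by rw [e]; exact h2, by rw [e]; exact FS_sensitive _ _, ?_⟩
  refine h3.trans (Nat.mul_le_mul_left _ (Finset.card_le_card ?_))
  intro x hx
  exact Finset.mem_filter.2 ⟨Finset.mem_univ _, (h4 x).2 (Finset.mem_filter.1 hx).2⟩

end Pool.Agent.EL44
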